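import Pool.Agent.helper37.NE.SpecB

/-!
# Row YWF of THEOREM NE (MP_baa4d7_al): the stabilisers agree
-/

set_option autoImplicit false

namespace Pool.Agent.NE

open Pool.Agent.helper58.DC Pool.Agent.DI Pool.Agent.GR Pool.Agent.OB Pool.Agent.DR Pool.Agent.FI Pool.Agent.FI3 Pool.Agent.FI4 Pool.Agent.FI4I Pool.Agent.LE Pool.Agent.L5 Pool.Agent.NAB Pool.Agent.ND

/-- Every element is the product of commuting powers of itself, a `p`-element and a `p`-regular element. -/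
theorem YWF_dec {p : ℕ} (hp : p.Prime) {G : Type} [Group G] [Finite G] (g : G) :
    ∃ e f : ℕ, g ^ e * g ^ f = g ∧ PEl p (g ^ e) ∧ PReg p (g ^ f) := by
  have hn : orderOf g ≠ 0 := (orderOf_pos g).ne'
  set n := orderOf g with hn'
  set a := p ^ n.factorization p with ha
  set b := n / p ^ n.factorization p with hb
  have hab : a * b = n := Nat.ordProj_mul_ordCompl_eq_self n p
  have hpb' : ¬ p ∣ b := Nat.not_dvd_ordCompl hp hn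
  have hpb : p.Coprime b := Nat.coprime_ordCompl hp hn
  have hco : a.Coprime b := hpb.pow_left _
  obtain ⟨e, he1, he2⟩ := Nat.chineseRemainder hco 1 0
  obtain ⟨f, hf1, hf2⟩ := Nat.chineseRemainder hco 0 1
  have hbe : b ∣ e := (Nat.modEq_zero_iff_dvd).mp he2
  have haf : a ∣ f := (Nat.modEq_zero_iff_dvd).mp hf1
  refine ⟨e, f, ?_, ⟨n.factorization p, ?_⟩, ?_⟩
  · have h1 : e + f ≡ 1 [MOD n] := by
      rw [← hab]
      refine (Nat.modEq_and_modEq_iff_modEq_mul hco).mp ⟨?_, ?_⟩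
      · simpa using he1.add hf1
      · simpa using he2.add hf2
    rw [← pow_add]
    have h2 := pow_eq_pow_iff_modEq.2 h1
    rw [h2, pow_one]
  · rw [← pow_mul, ← orderOf_dvd_iff_pow_eq_one, ← hn']
    calc n = b * a := by rw [mul_comm]; exact hab.symm
      _ ∣ e * a := Nat.mul_dvd_mul_right hbe _
  · intro hd
    have : orderOf (g ^ f) ∣ b := by
      rw [orderOf_dvd_iff_pow_eq_one, ← pow_mul, ← orderOf_dvd_iff_pow_eq_one, ← hn']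
      calc n = a * b := hab.symm
        _ ∣ f * b := Nat.mul_dvd_mul_right haf _
    exact hpb' (hd.trans this)

section

variable {G : Type} [Group G]

theorem YWF_cjmul (g h : G) (ψ : G → ℂ) : cjF (g * h) ψ = cjF g (cjF h ψ) := funMap_mul g h ψ

theorem YWF_cjone (ψ : G → ℂ) : cjF (1 : G) ψ = ψ := by
  funext x
  rw [cjF_apply, inv_one, one_mul, mul_one]

theorem YWF_pow {w : G} {ψ : G → ℂ} (h : cjF w ψ = ψ) (k : ℕ) : cjF (w ^ k) ψ = ψ := by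
  induction k with
  | zero => rw [pow_zero, YWF_cjone]
  | succ k ih => rw [pow_succ, YWF_cjmul, h, ih]

end

theorem YWF_half (hPF : YPF_stmt) (hEB : YEB_stmt) (hFF : YFF_stmt) (hSW : YSW_stmt) (hSN : YSN_stmt) (hCL : YCL_stmt)
    (hGW : YGW_stmt) (p e m t : ℕ) (M : Ideal (integralClosure ℤ ℂ)) (hM : Setup p M) (G : Type) [Group G] [Finite G]
    (N : Subgroup G) (χ : G → ℂ) (Z : Subgroup G) (z x : G) (hZ : ZN p e m t M N χ Z z x) (w : G) (hN : w ∈ nz N)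
    (hw : w ∈ nz Z) (hs : SB M N (cjF w χ) χ) (θ₀ : G → ℂ) (h0 : θ₀ ∈ GN p e m M N χ (N ⊓ cz Z) Z) (L L₁ : Subgroup G)
    (hL : L2 p e N z L) (hL₁ : L2 p e N z L₁) (ψ : G → ℂ) (hψ : ψ ∈ FF p e m t M N χ Z L θ₀) (ψ₁ : G → ℂ)
    (hψ₁ : ψ₁ ∈ FF p e m t M N χ Z L₁ θ₀) (hf : cjF w ψ = ψ) : cjF w ψ₁ = ψ₁ := by
  have hST := hSN p e m t M hM G N χ Z z x hZ
  have hp := hM.pr
  obtain ⟨s1, s2, s3, s4, s5, s6, s7, s8⟩ := hSW p e m t M hM G N χ Z z x hZ w hN hw hs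
  have q1 : ∀ k : ℕ, w ^ k ∈ nz N := fun k => (nz N).pow_mem hN k
  have q2 : ∀ k : ℕ, w ^ k ∈ nz Z := fun k => (nz Z).pow_mem hw k
  have q3 : ∀ k : ℕ, SB M N (cjF (w ^ k) χ) χ := fun k =>
    s5 _ (Subgroup.mem_sup_right (Subgroup.pow_mem _ (Subgroup.mem_zpowers w) k))
  have q4 : ∀ k : ℕ, ∃ h ∈ N ⊓ nz Z, cjF (w ^ k) θ₀ = cjF h θ₀ := by
    intro k
    obtain ⟨-, t2, t3, -, -, t6, -, -⟩ := hSW p e m t M hM G N χ Z z x hZ (w ^ k) (q1 k) (q2 k) (q3 k)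
    have hLL := (hSW p e m t M hM G N χ Z z x hZ (w ^ k) (q1 k) (q2 k) (q3 k)).1 L hL
    have r1 : cjF (w ^ k) θ₀ ∈ GN p e m M N χ (N ⊓ cz Z) Z := t2 _ t6 _ h0
    obtain ⟨g1, ε, hε, hR⟩ := hψ
    have hle : N ⊓ cz Z ≤ L := le_trans (inf_le_inf_left _ (Subgroup.centralizer_le_normalizer _)) hLL.2.1
    have r2 := t3 L hLL.1 hle ψ g1 θ₀ ε hR
    rw [YWF_pow hf k] at r2
    obtain ⟨h, hh, r3⟩ := hFF p e m t M hM G N χ Z z x hZ hST L θ₀ h0 _ r1 ψ ⟨g1, ε, hε, hR⟩ ⟨g1, ε, hε, r2⟩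
    refine ⟨h⁻¹, (N ⊓ nz Z).inv_mem hh, ?_⟩
    have r4 : cjF h⁻¹ (cjF h (cjF (w ^ k) θ₀)) = cjF (w ^ k) θ₀ := by
      rw [← YWF_cjmul, inv_mul_cancel, YWF_cjone]
    rw [r3] at r4
    exact r4.symm
  obtain ⟨i, j, h1, h2, h3⟩ := YWF_dec hp w
  have hb : cjF (w ^ i) ψ₁ = ψ₁ :=
    hPF p e m t M hM G N χ Z z x hZ hST (w ^ i) h2 (q1 i) (q2 i) (q3 i) L₁ hL₁ θ₀ h0 (q4 i) ψ₁ hψ₁
  have hc : cjF (w ^ j) ψ₁ = ψ₁ := by
    have hWW : WW p N Z (w ^ j) := ⟨h3, q1 j, q2 j⟩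
    have hHW : HW p e m t M N χ Z z x (w ^ j) := ⟨hZ, hWW, q3 j⟩
    obtain ⟨s, -, hsn, hse⟩ := (hGW p hp G N Z (w ^ j) hWW).2.2.2.2.2.2
    obtain ⟨θ', hθ', hm⟩ := (hCL G (N ⊓ cz Z) s hsn).2.1 θ₀ h0.1
    rw [← hse] at hθ'
    have e1 := hEB p e m t M hM G N χ Z z x (w ^ j) hHW hST L hL θ₀ h0 (q4 j) ψ hψ θ' hθ' hm
    have e2 := hEB p e m t M hM G N χ Z z x (w ^ j) hHW hST L₁ hL₁ θ₀ h0 (q4 j) ψ₁ hψ₁ θ' hθ' hm
    have e3 : {φ : G → ℂ | ∃ k : ℕ, φ = cjF ((w ^ j) ^ k) ψ} = {ψ} := by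
      ext φ
      constructor
      · rintro ⟨k, rfl⟩
        exact YWF_pow (YWF_pow hf j) k
      · rintro rfl
        exact ⟨0, by rw [pow_zero, YWF_cjone]⟩
    rw [e3, Set.ncard_singleton] at e1
    rw [← e1, Set.ncard_eq_one] at e2
    obtain ⟨a, ha⟩ := e2
    have m1 : ψ₁ ∈ {φ : G → ℂ | ∃ k : ℕ, φ = cjF ((w ^ j) ^ k) ψ₁} := ⟨0, by rw [pow_zero, YWF_cjone]⟩
    have m2 : cjF (w ^ j) ψ₁ ∈ {φ : G → ℂ | ∃ k : ℕ, φ = cjF ((w ^ j) ^ k) ψ₁} := ⟨1, by rw [pow_one]⟩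
    rw [ha] at m1 m2
    exact m2.trans m1.symm
  rw [← h1, YWF_cjmul, hc, hb]

theorem YWF (hPF : YPF_stmt) (hEB : YEB_stmt) (hFF : YFF_stmt) (hSW : YSW_stmt) (hSN : YSN_stmt) (hCL : YCL_stmt)
    (hGW : YGW_stmt) : YWF_stmt := by
  intro p e m t M hM G _ _ N χ Z z x hZ w hN hw hs θ₀ h0 ψ hψ ψ₁ hψ₁
  exact ⟨YWF_half hPF hEB hFF hSW hSN hCL hGW p e m t M hM G N χ Z z x hZ w hN hw hs θ₀ h0 _ _ (Or.inl rfl) (Or.inr rfl) ψ hψ ψ₁ hψ₁,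
    YWF_half hPF hEB hFF hSW hSN hCL hGW p e m t M hM G N χ Z z x hZ w hN hw hs θ₀ h0 _ _ (Or.inr rfl) (Or.inl rfl) ψ₁ hψ₁ ψ hψ⟩

end Pool.Agent.NE
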